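import Pool.Agent.Helper98.UN.COMP
import Pool.Agent.Helper1.All.Goals

/-!
PROJECT ALLSYSTEMS (MP_d3128a_ag), the goal S_CMP (helper98).
-/

set_option autoImplicit false

noncomputable section

namespace Pool.Agent.Helper98.All.CMP

open Pool.Agent.Helper98.UN Pool.Agent.Helper1.All

theorem card_col (S : Finset (ℕ × ℤ)) (X : ℤ) : (col S X).card = rl S X := by
  unfold col rl
  apply Finset.card_image_of_injOn
  intro q hq q' hq' h
  rw [Finset.mem_coe, Finset.mem_filter] at hq hq'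
  exact Prod.ext h (hq.2.trans hq'.2.symm)

theorem mem_cmp (S : Finset (ℕ × ℤ)) (q : ℕ × ℤ) (h : q ∈ Pool.Agent.Helper1.All.cmp S) : q.1 < rl S q.2 := by
  classical
  unfold Pool.Agent.Helper1.All.cmp at h
  rw [Finset.mem_biUnion] at h
  obtain ⟨X, -, hX⟩ := h
  rw [Finset.mem_image] at hX
  obtain ⟨i, hi, rfl⟩ := hX
  rw [Finset.mem_range] at hi
  exact hi

theorem w_to_c {b : ℕ} (M : Fin b → ℕ) (x y : Fin b → ℚ) (S : Finset (ℕ × ℤ))
    (hS : IndepW M x y S) : IndepC M x y S := by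
  intro a ha
  apply hS a
  intro l α β hαβ
  have h1 := ha l α β hαβ
  have h2 : ∀ q : ℕ × ℤ, a q * (((q.1.choose β : ℕ) : ℚ) * y l ^ q.1 *
      (((Ring.choose q.2 α : ℤ) : ℚ) * x l ^ q.2)) =
      y l ^ β * (a q * (((q.1.choose β : ℕ) : ℚ) * y l ^ (q.1 - β) *
        (((Ring.choose q.2 α : ℤ) : ℚ) * x l ^ q.2))) := by
    intro q
    by_cases h : β ≤ q.1
    · have h3 : y l ^ q.1 = y l ^ (q.1 - β) * y l ^ β := by
        rw [← pow_add]
        congr 1
        omega
      rw [h3]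
      ring
    · rw [Nat.choose_eq_zero_of_lt (by omega)]
      simp
  simp only [h2]
  rw [← Finset.mul_sum, h1, mul_zero]

theorem t : S_CMP := by
  intro b M x z S R _ hR hI
  obtain ⟨ε, hε, hy, S', hS', hc, hi⟩ := comp M x z S R (fun q hq => by
    rw [card_col]
    exact mem_cmp S q (hR hq)) hI
  exact ⟨ε, hε, hy, S', hS', hc, w_to_c M x _ S' hi⟩

end Pool.Agent.Helper98.All.CMP
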